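import Mathlib

/-!
# Small portfolios for symmetric monotonic norms

For every closed nonempty set `P` of nonnegative vectors of dimension `d` (in particular for every
covering polyhedron, with any number of constraints), every integer `β ≥ 2` and every `L` with
`d ≤ β ^ L`, there is a `(2 β ^ 2 + 2)`-approximate portfolio with at most `4 ^ L` elements.

Idea: round the sorted vector at the positions `β, β ^ 2, …` to powers of `1 / β` of its largest
coordinate. This gives a nondecreasing sequence of `L` numbers from `{0, …, L}`; there are at most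
`4 ^ L` such sequences. From each class of vectors with the same sequence pick one whose largest
coordinate is minimal up to a factor `2`.
-/

open Finset

namespace Pool.Agent.Results.MP_a76361_lc.SmallPortfolios

/-- A symmetric monotonic norm on `ℝ ^ d`: a norm which is invariant under permutations of the
coordinates and nondecreasing in each coordinate on the nonnegative vectors. -/
structure SymNorm (d : ℕ) where
  /-- the norm as a function -/
  toFun : (Fin d → ℝ) → ℝ
  add_le' : ∀ x y, toFun (x + y) ≤ toFun x + toFun y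
  smul' : ∀ (a : ℝ) (x : Fin d → ℝ), toFun (a • x) = |a| * toFun x
  eq_zero' : ∀ x, toFun x = 0 → x = 0
  perm' : ∀ (σ : Equiv.Perm (Fin d)) (x : Fin d → ℝ), toFun (fun i => x (σ i)) = toFun x
  mono' : ∀ x y : Fin d → ℝ, (∀ i, 0 ≤ x i) → (∀ i, x i ≤ y i) → toFun x ≤ toFun y

/-- `X` is an `α`-approximate portfolio for `P`: a finite subset of `P` such that for every symmetric
monotonic norm `f` some member of `X` has `f x ≤ α * inf {f y : y ∈ P}`. -/
def IsPortfolio {d : ℕ} (α : ℝ) (P : Set (Fin d → ℝ)) (X : Finset (Fin d → ℝ)) : Prop :=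
  (∀ x ∈ X, x ∈ P) ∧ ∀ f : SymNorm d, ∃ x ∈ X, f.toFun x ≤ α * sInf (f.toFun '' P)

/-- `P` is a covering polyhedron in dimension `d` with `r` constraints. -/
def IsCovering (d r : ℕ) (P : Set (Fin d → ℝ)) : Prop :=
  P.Nonempty ∧ ∃ (A : Fin r → Fin d → ℝ) (b : Fin r → ℝ), (∀ i j, 0 ≤ A i j) ∧ (∀ i, 0 ≤ b i) ∧
    P = {x | (∀ j, 0 ≤ x j) ∧ ∀ i, b i ≤ ∑ j, A i j * x j}

variable {d : ℕ}

lemma zero' (f : SymNorm d) : f.toFun 0 = 0 := by
  have := f.smul' 0 0
  simpa using this

lemma nonneg' (f : SymNorm d) (x : Fin d → ℝ) : 0 ≤ f.toFun x := by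
  have h1 := f.add_le' x (-x)
  have h2 := f.smul' (-1) x
  rw [add_neg_cancel, zero'] at h1
  rw [neg_one_smul] at h2
  rw [h2] at h1
  norm_num at h1
  linarith

lemma sum_le' (f : SymNorm d) {ι : Type*} (s : Finset ι) (g : ι → Fin d → ℝ) :
    f.toFun (∑ i ∈ s, g i) ≤ ∑ i ∈ s, f.toFun (g i) := by
  classical
  induction s using Finset.induction_on with
  | empty => simp [zero']
  | insert a s ha ih =>
    rw [Finset.sum_insert ha, Finset.sum_insert ha]
    exact (f.add_le' _ _).trans (by linarith)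

/-- A nonnegative vector supported on `S` which is dominated, through an injection of `S`, by a
nonnegative vector `y`, has smaller norm. -/
lemma inj_le (f : SymNorm d) (x y : Fin d → ℝ) (hx : ∀ i, 0 ≤ x i) (hy : ∀ i, 0 ≤ y i)
    (S : Finset (Fin d)) (g : Fin d → Fin d) (hg : Set.InjOn g S)
    (h0 : ∀ i ∉ S, x i = 0) (h1 : ∀ i ∈ S, x i ≤ y (g i)) : f.toFun x ≤ f.toFun y := by
  classical
  let e : {i // i ∈ S} ≃ {i // i ∈ S.image g} :=
    Equiv.ofBijective (fun i => ⟨g i, Finset.mem_image_of_mem g i.2⟩) (by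
      constructor
      · intro a b hab
        exact Subtype.ext (hg a.2 b.2 (by simpa using hab))
      · rintro ⟨b, hb⟩
        obtain ⟨a, ha, rfl⟩ := Finset.mem_image.1 hb
        exact ⟨⟨a, ha⟩, rfl⟩)
  let σ : Equiv.Perm (Fin d) := e.extendSubtype
  have hσ : ∀ i ∈ S, σ i = g i := by
    intro i hi
    have := Equiv.extendSubtype_apply_of_mem e i hi
    rw [this]; rfl
  rw [← f.perm' σ y]
  apply f.mono' _ _ hx
  intro i
  by_cases hi : i ∈ S
  · rw [hσ i hi]; exact h1 i hi
  · rw [h0 i hi]; exact hy _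

/-- division of indices -/
def dv (β : ℕ) (n : Fin d) : Fin d := ⟨n / β, lt_of_le_of_lt (Nat.div_le_self _ _) n.2⟩

lemma dilate (f : SymNorm d) {β : ℕ} (hβ : 0 < β) (v : Fin d → ℝ) (hv : ∀ i, 0 ≤ v i) :
    f.toFun (fun n => v (dv β n)) ≤ β * f.toFun v := by
  classical
  let w : ℕ → Fin d → ℝ := fun r n => if (n : ℕ) % β = r then v (dv β n) else 0
  have hsum : (fun n => v (dv β n)) = ∑ r ∈ Finset.range β, w r := by
    funext n
    rw [Finset.sum_apply]
    simp only [w]
    rw [Finset.sum_ite_eq]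
    rw [if_pos (Finset.mem_range.2 (Nat.mod_lt _ hβ))]
  have hw : ∀ r ∈ Finset.range β, f.toFun (w r) ≤ f.toFun v := by
    intro r hr
    apply inj_le f (w r) v _ hv (Finset.univ.filter (fun n : Fin d => (n : ℕ) % β = r)) (dv β)
    · intro a ha b hb hab
      simp only [Finset.coe_filter, Finset.mem_univ, true_and, Set.mem_ofPred_eq] at ha hb
      have h1 : (a : ℕ) / β = (b : ℕ) / β := by
        have := congrArg Fin.val hab
        simpa [dv] using this
      apply Fin.ext
      rw [← Nat.div_add_mod (a : ℕ) β, ← Nat.div_add_mod (b : ℕ) β, h1, ha, hb]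
    · intro i hi
      simp only [Finset.mem_filter, Finset.mem_univ, true_and] at hi
      simp only [w]; rw [if_neg hi]
    · intro i hi
      simp only [Finset.mem_filter, Finset.mem_univ, true_and] at hi
      simp only [w]; rw [if_pos hi]
    · intro i
      simp only [w]
      split_ifs
      · exact hv _
      · exact le_rfl
  rw [hsum]
  refine (sum_le' f _ _).trans ((Finset.sum_le_sum hw).trans ?_)
  rw [Finset.sum_const, Finset.card_range, nsmul_eq_mul]

/-- the vector rearranged in nonincreasing order -/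
noncomputable def srt (x : Fin d → ℝ) : Fin d → ℝ := fun i => x (Tuple.sort (fun j => - x j) i)

lemma srt_anti (x : Fin d → ℝ) : Antitone (srt x) := by
  intro i j hij
  have := Tuple.monotone_sort (fun j => - x j) hij
  simp only [Function.comp] at this
  simp only [srt]
  linarith

lemma srt_nonneg {x : Fin d → ℝ} (hx : ∀ i, 0 ≤ x i) (i : Fin d) : 0 ≤ srt x i := hx _

lemma srt_norm (f : SymNorm d) (x : Fin d → ℝ) : f.toFun (srt x) = f.toFun x :=
  f.perm' _ x

/-- largest coordinate -/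
noncomputable def top (x : Fin d → ℝ) : ℝ := if h : 0 < d then srt x ⟨0, h⟩ else 0

/-- the coordinate at the (1-indexed) position `β ^ (i + 1)` of the sorted vector, `0` beyond `d` -/
noncomputable def val (β : ℕ) (x : Fin d → ℝ) (i : ℕ) : ℝ :=
  if h : β ^ (i + 1) - 1 < d then srt x ⟨β ^ (i + 1) - 1, h⟩ else 0

/-- the rounded exponent at position `β ^ (i + 1)` -/
noncomputable def ex (β L : ℕ) (x : Fin d → ℝ) (i : ℕ) : ℕ :=
  open Classical in Nat.findGreatest (fun k => val β x i * β ^ k ≤ top x) L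

lemma val_anti {β : ℕ} (hβ : 2 ≤ β) {x : Fin d → ℝ} (hx : ∀ i, 0 ≤ x i) :
    Antitone (val β x) := by
  apply antitone_nat_of_succ_le
  intro i
  have hp : β ^ (i + 1) ≤ β ^ (i + 1 + 1) := Nat.pow_le_pow_right (by omega) (by omega)
  unfold val
  split_ifs with h1 h2
  · apply srt_anti
    rw [Fin.le_def]
    simp only
    omega
  · omega
  · exact srt_nonneg hx _
  · exact le_rfl

lemma val_le_top {β : ℕ} {x : Fin d → ℝ} (hx : ∀ i, 0 ≤ x i) (i : ℕ) :
    val β x i ≤ top x := by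
  unfold val top
  split_ifs with h1 h2
  · apply srt_anti
    rw [Fin.le_def]
    simp only
    omega
  · omega
  · exact srt_nonneg hx _
  · exact le_rfl

lemma ex_le (β L : ℕ) (x : Fin d → ℝ) (i : ℕ) : ex β L x i ≤ L := Nat.findGreatest_le _

lemma ex_mono {β : ℕ} (hβ : 2 ≤ β) (L : ℕ) {x : Fin d → ℝ} (hx : ∀ i, 0 ≤ x i) :
    Monotone (ex β L x) := by
  intro i j hij
  unfold ex
  apply Nat.findGreatest_mono_left
  intro k hk
  have h1 := val_anti hβ hx hij
  have h2 : (0 : ℝ) ≤ (β : ℝ) ^ k := by positivity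
  nlinarith

lemma ex_spec {β : ℕ} (L : ℕ) {x : Fin d → ℝ} (hx : ∀ i, 0 ≤ x i) (i : ℕ) :
    val β x i * β ^ (ex β L x i) ≤ top x := by
  classical
  have := Nat.findGreatest_spec (P := fun k => val β x i * (β : ℝ) ^ k ≤ top x) (m := 0) (n := L)
    (Nat.zero_le _) (by simpa using val_le_top hx i)
  convert this using 3
  unfold ex
  congr

lemma ex_spec' {β : ℕ} (L : ℕ) {x : Fin d → ℝ} (i : ℕ) (h : ex β L x i < L) :
    top x < val β x i * β ^ (ex β L x i + 1) := by
  classical
  have := Nat.findGreatest_is_greatest (P := fun k => val β x i * (β : ℝ) ^ k ≤ top x) (n := L)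
    (k := ex β L x i + 1) (by
      have : Nat.findGreatest (fun k => val β x i * (β : ℝ) ^ k ≤ top x) L = ex β L x i := by
        unfold ex; congr
      omega) (by omega)
  exact not_le.1 this

/-- the code of a vector -/
noncomputable def code (β L : ℕ) (x : Fin d → ℝ) : Finset ℕ :=
  (Finset.univ : Finset (Fin L)).image (fun i : Fin L => ex β L x (i : ℕ) + (i : ℕ))

lemma code_mem (β L : ℕ) (x : Fin d → ℝ) : code β L x ∈ (Finset.range (2 * L)).powerset := by
  rw [Finset.mem_powerset]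
  intro a ha
  obtain ⟨i, _, rfl⟩ := Finset.mem_image.1 ha
  have h1 := ex_le β L x i
  have h2 := i.2
  rw [Finset.mem_range]; omega

lemma code_inj {β : ℕ} (hβ : 2 ≤ β) (L : ℕ) {x y : Fin d → ℝ} (hx : ∀ i, 0 ≤ x i)
    (hy : ∀ i, 0 ≤ y i) (h : code β L x = code β L y) (i : ℕ) (hi : i < L) :
    ex β L x i = ex β L y i := by
  have key : ∀ {z : Fin d → ℝ}, (∀ i, 0 ≤ z i) →
      StrictMono (fun i : Fin L => ex β L z i + (i : ℕ)) := by
    intro z hz a b hab
    have h1 := ex_mono hβ L hz (show (a : ℕ) ≤ b from hab.le)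
    have h2 : (a : ℕ) < b := hab
    simp only
    omega
  have hr : Set.range (fun i : Fin L => ex β L x i + (i : ℕ)) =
      Set.range (fun i : Fin L => ex β L y i + (i : ℕ)) := by
    have := congrArg (fun s : Finset ℕ => (s : Set ℕ)) h
    simpa [code] using this
  have := (StrictMono.range_inj (key hx) (key hy)).1 hr
  have := congrFun this ⟨i, hi⟩
  simpa using this

lemma pointwise {β : ℕ} (hβ : 2 ≤ β) {L : ℕ} (hL : d ≤ β ^ L) (hd : 0 < d) {x y : Fin d → ℝ}
    (hx : ∀ i, 0 ≤ x i) (hy : ∀ i, 0 ≤ y i) (h : code β L x = code β L y)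
    (hxy : top x ≤ 2 * top y) (n : Fin d) :
    srt x n ≤ 2 * β * srt y (dv β n) + top x / d := by
  have hβ' : (2 : ℝ) ≤ β := by exact_mod_cast hβ
  have htx : srt x ⟨0, hd⟩ = top x := by unfold top; rw [dif_pos hd]
  have hty : srt y ⟨0, hd⟩ = top y := by unfold top; rw [dif_pos hd]
  have htx0 : 0 ≤ top x := by rw [← htx]; exact srt_nonneg hx _
  have hty0 : 0 ≤ top y := by rw [← hty]; exact srt_nonneg hy _
  have hd' : (0 : ℝ) < d := by exact_mod_cast hd
  have hq : 0 ≤ top x / d := by positivity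
  rcases Nat.eq_zero_or_pos (Nat.log β ((n : ℕ) + 1)) with h0 | h0
  · have h1 : (n : ℕ) + 1 < β := by
      by_contra hcon
      have := Nat.log_pos (by omega : 1 < β) (not_lt.1 hcon)
      omega
    have h2 : dv β n = ⟨0, hd⟩ := by
      apply Fin.ext
      simp only [dv]
      exact Nat.div_eq_of_lt (by omega)
    rw [h2, hty]
    have h3 : srt x n ≤ top x := by
      rw [← htx]; apply srt_anti; rw [Fin.le_def]; simp
    nlinarith
  · obtain ⟨i, hi⟩ : ∃ i, Nat.log β ((n : ℕ) + 1) = i + 1 := ⟨_, (Nat.succ_pred_eq_of_pos h0).symm⟩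
    have h1 : β ^ (i + 1) ≤ (n : ℕ) + 1 := by
      rw [← hi]; exact Nat.pow_log_le_self β (by omega)
    have h2 : (n : ℕ) + 1 < β ^ (i + 2) := by
      have := Nat.lt_pow_succ_log_self (by omega : 1 < β) ((n : ℕ) + 1)
      rw [hi] at this; exact this
    have hpos : 0 < β ^ (i + 1) := Nat.pow_pos (by omega)
    have hiL : i < L := by
      by_contra hcon
      have h3 : β ^ L ≤ β ^ i := Nat.pow_le_pow_right (by omega) (not_lt.1 hcon)
      have h4 : β ^ i < β ^ (i + 1) := Nat.pow_lt_pow_right (by omega) (by omega)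
      have := n.2
      omega
    have hin : β ^ (i + 1) - 1 < d := by have := n.2; omega
    have hvx : val β x i = srt x ⟨β ^ (i + 1) - 1, hin⟩ := by unfold val; rw [dif_pos hin]
    have hvy : val β y i = srt y ⟨β ^ (i + 1) - 1, hin⟩ := by unfold val; rw [dif_pos hin]
    have hux : srt x n ≤ val β x i := by
      rw [hvx]; apply srt_anti; rw [Fin.le_def]; simp only; omega
    have huy : val β y i ≤ srt y (dv β n) := by
      rw [hvy]; apply srt_anti; rw [Fin.le_def]
      simp only [dv]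
      have : (n : ℕ) / β < β ^ (i + 1) := by
        rw [Nat.div_lt_iff_lt_mul (by omega)]
        calc (n : ℕ) < β ^ (i + 2) := by omega
          _ = β ^ (i + 1) * β := by rw [pow_succ]
      omega
    have hE := code_inj hβ L hx hy h i hiL
    have hs := ex_spec (β := β) L hx i
    have hy0 : 0 ≤ srt y (dv β n) := srt_nonneg hy _
    rcases lt_or_eq_of_le (ex_le β L x i) with hlt | heq
    · have hs' := ex_spec' L i (hE ▸ hlt : ex β L y i < L)
      rw [← hE] at hs'
      have hbp : (0 : ℝ) < (β : ℝ) ^ (ex β L x i) := by positivity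
      have h5 : val β x i * (β : ℝ) ^ (ex β L x i) ≤
          (2 * β * val β y i) * (β : ℝ) ^ (ex β L x i) := by
        rw [pow_succ] at hs'
        nlinarith
      have h6 := le_of_mul_le_mul_right h5 hbp
      nlinarith
    · rw [heq] at hs
      have h5 : (d : ℝ) ≤ (β : ℝ) ^ L := by exact_mod_cast hL
      have h6 : 0 ≤ val β x i := by rw [hvx]; exact srt_nonneg hx _
      have h7 : val β x i ≤ top x / d := by
        rw [le_div_iff₀ hd']
        nlinarith
      have : 0 ≤ 2 * (β : ℝ) * srt y (dv β n) := by positivity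
      linarith

lemma key {β : ℕ} (hβ : 2 ≤ β) {L : ℕ} (hL : d ≤ β ^ L) (hd : 0 < d) {x y : Fin d → ℝ}
    (hx : ∀ i, 0 ≤ x i) (hy : ∀ i, 0 ≤ y i) (h : code β L x = code β L y)
    (hxy : top x ≤ 2 * top y) (f : SymNorm d) :
    f.toFun x ≤ (2 * (β : ℝ) ^ 2 + 2) * f.toFun y := by
  classical
  have hd' : (0 : ℝ) < d := by exact_mod_cast hd
  have htx : srt x ⟨0, hd⟩ = top x := by unfold top; rw [dif_pos hd]
  have hty : srt y ⟨0, hd⟩ = top y := by unfold top; rw [dif_pos hd]
  have htx0 : 0 ≤ top x := by rw [← htx]; exact srt_nonneg hx _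
  have hty0 : 0 ≤ top y := by rw [← hty]; exact srt_nonneg hy _
  have hq : 0 ≤ top x / d := by positivity
  have h1 : f.toFun x ≤ f.toFun ((2 * (β : ℝ)) • (fun n => srt y (dv β n)) +
      (top x / d) • (fun _ => (1 : ℝ))) := by
    rw [← srt_norm f x]
    apply f.mono' _ _ (srt_nonneg hx)
    intro n
    have := pointwise hβ hL hd hx hy h hxy n
    simpa using this
  have h2 := f.add_le' ((2 * (β : ℝ)) • (fun n => srt y (dv β n))) ((top x / d) • (fun _ => (1 : ℝ)))
  rw [f.smul', f.smul', abs_of_nonneg (by positivity), abs_of_nonneg hq] at h2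
  have h3 := dilate f (by omega : 0 < β) (srt y) (srt_nonneg hy)
  -- the norm of the all-one vector
  let e : Fin d → Fin d → ℝ := fun i => Pi.single i 1
  have he : ∀ i, f.toFun (e i) = f.toFun (e ⟨0, hd⟩) := by
    intro i
    rw [← f.perm' (Equiv.swap i ⟨0, hd⟩) (e ⟨0, hd⟩)]
    congr 1
    funext j
    simp only [e, Pi.single_apply]
    by_cases hj : j = i
    · subst hj; simp
    · rw [if_neg hj, if_neg]
      intro hcon
      apply hj
      have := congrArg (Equiv.swap i (⟨0, hd⟩ : Fin d)) hcon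
      simpa using this
  have h4 : f.toFun (fun _ => (1 : ℝ)) ≤ d * f.toFun (e ⟨0, hd⟩) := by
    have h5 : (fun _ => (1 : ℝ)) = ∑ i : Fin d, e i := by
      funext j
      simp [e, Finset.sum_apply, Pi.single_apply]
    rw [h5]
    refine (sum_le' f _ _).trans ?_
    rw [Finset.sum_congr rfl (fun i _ => he i), Finset.sum_const, Finset.card_univ,
      Fintype.card_fin, nsmul_eq_mul]
  have h5 : top y * f.toFun (e ⟨0, hd⟩) ≤ f.toFun y := by
    rw [← srt_norm f y]
    have h6 := f.smul' (top y) (e ⟨0, hd⟩)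
    rw [abs_of_nonneg hty0] at h6
    rw [← h6]
    apply f.mono'
    · intro i
      simp only [e, Pi.smul_apply, smul_eq_mul, Pi.single_apply]
      split_ifs <;> simp [hty0]
    · intro i
      simp only [e, Pi.smul_apply, smul_eq_mul, Pi.single_apply]
      split_ifs with h7
      · rw [h7, hty]; simp
      · simpa using srt_nonneg hy i
  have he0 : 0 ≤ f.toFun (e ⟨0, hd⟩) := nonneg' f _
  have h7 : top x / d * f.toFun (fun _ => (1 : ℝ)) ≤ 2 * f.toFun y := by
    calc top x / d * f.toFun (fun _ => (1 : ℝ)) ≤ top x / d * (d * f.toFun (e ⟨0, hd⟩)) :=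
          mul_le_mul_of_nonneg_left h4 hq
      _ = top x * f.toFun (e ⟨0, hd⟩) := by field_simp
      _ ≤ 2 * top y * f.toFun (e ⟨0, hd⟩) := mul_le_mul_of_nonneg_right hxy he0
      _ ≤ 2 * f.toFun y := by linarith
  rw [srt_norm] at h3
  have h8 : 2 * (β : ℝ) * f.toFun (fun n => srt y (dv β n)) ≤ 2 * (β : ℝ) * (β * f.toFun y) :=
    mul_le_mul_of_nonneg_left h3 (by positivity)
  nlinarith

/-- A finite set which contains, for every `y ∈ P`, an element at least as good up to the factor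
`α`, is an `α`-approximate portfolio. -/
lemma portfolio_of {α : ℝ} (hα : 0 ≤ α) {P : Set (Fin d → ℝ)} (hP : P.Nonempty)
    {X : Finset (Fin d → ℝ)} (hX : ∀ x ∈ X, x ∈ P)
    (h : ∀ y ∈ P, ∃ x ∈ X, ∀ f : SymNorm d, f.toFun x ≤ α * f.toFun y) : IsPortfolio α P X := by
  refine ⟨hX, fun f => ?_⟩
  obtain ⟨y0, hy0⟩ := hP
  obtain ⟨x0, hx0, -⟩ := h y0 hy0
  obtain ⟨x, hx, hmin⟩ := Finset.exists_min_image X f.toFun ⟨x0, hx0⟩
  refine ⟨x, hx, ?_⟩
  have hle : ∀ y ∈ P, f.toFun x ≤ α * f.toFun y := by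
    intro y hy
    obtain ⟨x', hx', h'⟩ := h y hy
    exact (hmin x' hx').trans (h' f)
  have hne : (f.toFun '' P).Nonempty := ⟨_, ⟨y0, hy0, rfl⟩⟩
  rcases eq_or_lt_of_le hα with h0 | h0
  · have := hle y0 hy0
    rw [← h0, zero_mul] at this ⊢
    exact this
  · rw [← div_le_iff₀' h0]
    apply le_csInf hne
    rintro _ ⟨y, hy, rfl⟩
    rw [div_le_iff₀' h0]
    exact hle y hy

lemma top_ge {x : Fin d → ℝ} (i : Fin d) : x i ≤ top x := by
  have hd : 0 < d := lt_of_le_of_lt (Nat.zero_le _) i.2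
  unfold top
  rw [dif_pos hd]
  have : x i = srt x ((Tuple.sort (fun j => - x j)).symm i) := by simp [srt]
  rw [this]
  apply srt_anti
  rw [Fin.le_def]; simp

/-- **Small portfolios.** -/
theorem small {β : ℕ} (hβ : 2 ≤ β) {L : ℕ} (hL : d ≤ β ^ L) (hd : 0 < d)
    {P : Set (Fin d → ℝ)} (hcl : IsClosed P) (hne : P.Nonempty) (hP : ∀ x ∈ P, ∀ i, 0 ≤ x i) :
    ∃ X : Finset (Fin d → ℝ), X.card ≤ 4 ^ L ∧ IsPortfolio (2 * (β : ℝ) ^ 2 + 2) P X := by
  classical
  by_cases h0 : (0 : Fin d → ℝ) ∈ P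
  · refine ⟨{0}, ?_, ?_⟩
    · rw [Finset.card_singleton]; exact Nat.one_le_pow _ _ (by norm_num)
    · apply portfolio_of (by positivity) hne
      · intro x hx; rw [Finset.mem_singleton] at hx; rw [hx]; exact h0
      · intro y _
        refine ⟨0, Finset.mem_singleton_self _, fun f => ?_⟩
        rw [zero']
        have := nonneg' f y
        positivity
  · -- the largest coordinate is bounded below by a positive number
    obtain ⟨ε, hε, hball⟩ : ∃ ε > 0, ∀ y ∈ P, ε ≤ top y := by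
      have hopen : IsOpen Pᶜ := hcl.isOpen_compl
      obtain ⟨ε, hε, hb⟩ := Metric.isOpen_iff.1 hopen 0 h0
      refine ⟨ε, hε, fun y hy => ?_⟩
      by_contra hcon
      rw [not_le] at hcon
      have : y ∈ Metric.ball (0 : Fin d → ℝ) ε := by
        rw [mem_ball_zero_iff, pi_norm_lt_iff hε]
        intro i
        rw [Real.norm_eq_abs, abs_of_nonneg (hP y hy i)]
        exact lt_of_le_of_lt (top_ge i) hcon
      exact hb this hy
    -- choose a representative of each code
    have hch : ∀ S : Finset ℕ, (∃ y ∈ P, code β L y = S) →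
        ∃ x ∈ P, code β L x = S ∧ ∀ y ∈ P, code β L y = S → top x ≤ 2 * top y := by
      rintro S ⟨y0, hy0, hS⟩
      set T : Set ℝ := top '' {y | y ∈ P ∧ code β L y = S} with hT
      have hTne : T.Nonempty := ⟨_, ⟨y0, ⟨hy0, hS⟩, rfl⟩⟩
      have hTb : BddBelow T := ⟨ε, by rintro _ ⟨y, ⟨hy, -⟩, rfl⟩; exact hball y hy⟩
      have hpos : ε ≤ sInf T := le_csInf hTne (by rintro _ ⟨y, ⟨hy, -⟩, rfl⟩; exact hball y hy)
      obtain ⟨_, ⟨x, ⟨hx, hxS⟩, rfl⟩, hlt⟩ := exists_lt_of_csInf_lt hTne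
        (show sInf T < 2 * sInf T by linarith)
      refine ⟨x, hx, hxS, fun y hy hyS => ?_⟩
      have := csInf_le hTb ⟨y, ⟨hy, hyS⟩, rfl⟩
      linarith
    let rep : Finset ℕ → (Fin d → ℝ) := fun S =>
      if h : ∃ y ∈ P, code β L y = S then (hch S h).choose else hne.some
    refine ⟨(Finset.range (2 * L)).powerset.image rep, ?_, ?_⟩
    · refine Finset.card_image_le.trans ?_
      rw [Finset.card_powerset, Finset.card_range, pow_mul]
      norm_num
    · apply portfolio_of (by positivity) hne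
      · intro x hx
        obtain ⟨S, -, rfl⟩ := Finset.mem_image.1 hx
        by_cases h : ∃ y ∈ P, code β L y = S
        · simp only [rep]; rw [dif_pos h]; exact (hch S h).choose_spec.1
        · simp only [rep]; rw [dif_neg h]; exact hne.some_mem
      · intro y hy
        refine ⟨rep (code β L y), Finset.mem_image_of_mem _ (code_mem β L y), fun f => ?_⟩
        have h : ∃ z ∈ P, code β L z = code β L y := ⟨y, hy, rfl⟩
        have hr : rep (code β L y) = (hch _ h).choose := by simp only [rep]; rw [dif_pos h]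
        obtain ⟨g1, g2, g3⟩ := (hch _ h).choose_spec
        rw [hr]
        exact key hβ hL hd (hP _ g1) (hP y hy) g2 (g3 y hy rfl) f

lemma covering_closed {r : ℕ} {P : Set (Fin d → ℝ)} (h : IsCovering d r P) :
    IsClosed P ∧ P.Nonempty ∧ ∀ x ∈ P, ∀ i, 0 ≤ x i := by
  obtain ⟨hne, A, b, hA, hb, rfl⟩ := h
  refine ⟨?_, hne, fun x hx => hx.1⟩
  apply IsClosed.inter
  · have : {x : Fin d → ℝ | ∀ j, 0 ≤ x j} = ⋂ j, {x | 0 ≤ x j} := by ext; simp
    change IsClosed {x : Fin d → ℝ | ∀ j, 0 ≤ x j}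
    rw [this]
    exact isClosed_iInter fun j => isClosed_le continuous_const (continuous_apply j)
  · change IsClosed {x : Fin d → ℝ | ∀ i, b i ≤ ∑ j, A i j * x j}
    have : {x : Fin d → ℝ | ∀ i, b i ≤ ∑ j, A i j * x j} =
        ⋂ i, {x | b i ≤ ∑ j, A i j * x j} := by ext; simp
    rw [this]
    refine isClosed_iInter fun i => isClosed_le continuous_const ?_
    exact continuous_finsetSum _ fun j _ => continuous_const.mul (continuous_apply j)

/-- asymptotic form -/
theorem asym (c δ : ℝ) (hc : 0 < c) (hδ : 0 < δ) :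
    ∀ᶠ d : ℕ in Filter.atTop, ∀ P : Set (Fin d → ℝ), IsClosed P → P.Nonempty →
      (∀ x ∈ P, ∀ i, 0 ≤ x i) →
      ∃ X : Finset (Fin d → ℝ), (X.card : ℝ) < (d : ℝ) ^ δ ∧ IsPortfolio (c * Real.log d) P X := by
  obtain ⟨k, hk⟩ := exists_nat_gt (2 / δ)
  have hk0 : 0 < k := by
    have : (0 : ℝ) < k := lt_trans (by positivity) hk
    exact_mod_cast this
  have hk' : 0 < (k : ℝ) := by exact_mod_cast hk0
  have hβ : 2 ≤ 4 ^ k := by
    calc 2 ≤ 4 ^ 1 := by norm_num
      _ ≤ 4 ^ k := Nat.pow_le_pow_right (by norm_num) hk0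
  have t1 : Filter.Tendsto (fun d : ℕ => c * Real.log d) Filter.atTop Filter.atTop :=
    (Real.tendsto_log_atTop.comp tendsto_natCast_atTop_atTop).const_mul_atTop hc
  have t2 : Filter.Tendsto (fun d : ℕ => (d : ℝ) ^ (δ / 2)) Filter.atTop Filter.atTop :=
    (tendsto_rpow_atTop (by positivity)).comp tendsto_natCast_atTop_atTop
  filter_upwards [t1.eventually_ge_atTop (2 * ((4 ^ k : ℕ) : ℝ) ^ 2 + 2),
    t2.eventually_ge_atTop 4, Filter.eventually_ge_atTop 2] with d h1 h2 h3 P hcl hne hP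
  set β : ℕ := 4 ^ k with hβd
  set L : ℕ := Nat.clog β d with hLd
  have hL : d ≤ β ^ L := Nat.le_pow_clog (by omega) d
  obtain ⟨X, hX1, hX2, hX3⟩ := small hβ hL (by omega) hcl hne hP
  refine ⟨X, ?_, hX2, fun f => ?_⟩
  · have hLpos : 0 < L := Nat.clog_pos (by omega) (by omega)
    have h4 : β ^ (L - 1) < d := Nat.pow_pred_clog_lt_self (by omega) (by omega)
    have hd0 : (0 : ℝ) < d := by exact_mod_cast (by omega : 0 < d)
    have hd1 : (1 : ℝ) ≤ d := by exact_mod_cast (by omega : 1 ≤ d)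
    have h5 : ((4 : ℝ) ^ (L - 1)) ^ (k : ℝ) < d := by
      have : ((4 : ℝ) ^ (L - 1)) ^ (k : ℝ) = ((β ^ (L - 1) : ℕ) : ℝ) := by
        rw [Real.rpow_natCast, ← pow_mul, mul_comm, pow_mul, hβd]
        push_cast; rfl
      rw [this]; exact_mod_cast h4
    have h6 : (4 : ℝ) ^ (L - 1) < (d : ℝ) ^ (δ / 2) := by
      have h7 : (4 : ℝ) ^ (L - 1) = (((4 : ℝ) ^ (L - 1)) ^ (k : ℝ)) ^ ((k : ℝ)⁻¹) := by
        rw [← Real.rpow_mul (by positivity), mul_inv_cancel₀ hk'.ne', Real.rpow_one]
      rw [h7]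
      calc (((4 : ℝ) ^ (L - 1)) ^ (k : ℝ)) ^ ((k : ℝ)⁻¹) < (d : ℝ) ^ ((k : ℝ)⁻¹) :=
            Real.rpow_lt_rpow (by positivity) h5 (by positivity)
        _ ≤ (d : ℝ) ^ (δ / 2) := by
            apply Real.rpow_le_rpow_of_exponent_le hd1
            rw [inv_le_comm₀ hk' (by positivity), inv_div]
            exact hk.le
    have h8 : (4 : ℝ) ^ L = 4 * 4 ^ (L - 1) := by
      rw [← pow_succ']; congr 1; omega
    have h9 : (d : ℝ) ^ δ = (d : ℝ) ^ (δ / 2) * (d : ℝ) ^ (δ / 2) := by
      rw [← Real.rpow_add hd0]; congr 1; ring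
    calc (X.card : ℝ) ≤ ((4 ^ L : ℕ) : ℝ) := by exact_mod_cast hX1
      _ = (4 : ℝ) ^ L := by push_cast; rfl
      _ = 4 * 4 ^ (L - 1) := h8
      _ < 4 * (d : ℝ) ^ (δ / 2) := by linarith
      _ ≤ (d : ℝ) ^ (δ / 2) * (d : ℝ) ^ (δ / 2) := by
          apply mul_le_mul_of_nonneg_right h2 (by positivity)
      _ = (d : ℝ) ^ δ := h9.symm
  · obtain ⟨x, hx, hxf⟩ := hX3 f
    refine ⟨x, hx, hxf.trans ?_⟩
    apply mul_le_mul_of_nonneg_right h1
    apply Real.sInf_nonneg
    rintro _ ⟨y, -, rfl⟩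
    exact nonneg' f y

/-- **Q1 is disproved**, in a strong form.

(1) For every `β ≥ 2` and `L` with `d ≤ β ^ L`, every closed nonempty set of nonnegative vectors in
dimension `d` has a `(2 β ^ 2 + 2)`-approximate portfolio with at most `4 ^ L` elements.

(2) For all `c > 0` and `δ > 0`, for all large `d`, every covering polyhedron in dimension `d`, with
any number of constraints, has a `(c log d)`-approximate portfolio with fewer than `d ^ δ` elements.

(3) The statement of Q1 is false. -/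
theorem result :
    (∀ (d β L : ℕ), 1 ≤ d → 2 ≤ β → d ≤ β ^ L → ∀ P : Set (Fin d → ℝ), IsClosed P → P.Nonempty →
      (∀ x ∈ P, ∀ i, 0 ≤ x i) →
      ∃ X : Finset (Fin d → ℝ), X.card ≤ 4 ^ L ∧ IsPortfolio (2 * (β : ℝ) ^ 2 + 2) P X) ∧
    (∀ c δ : ℝ, 0 < c → 0 < δ → ∀ᶠ d : ℕ in Filter.atTop, ∀ (r : ℕ) (P : Set (Fin d → ℝ)),
      IsCovering d r P →
      ∃ X : Finset (Fin d → ℝ), IsPortfolio (c * Real.log d) P X ∧ (X.card : ℝ) < (d : ℝ) ^ δ) ∧
    ¬ (∀ c : ℝ, 1 ≤ c → ∃ C δ : ℝ, 0 < C ∧ 0 < δ ∧ ∀ᶠ d : ℕ in Filter.atTop,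
      ∃ (r : ℕ) (P : Set (Fin d → ℝ)), (r : ℝ) ≤ C * Real.log d ∧ IsCovering d r P ∧
        ∀ X : Finset (Fin d → ℝ), IsPortfolio (c * Real.log d) P X →
          (d : ℝ) ^ δ ≤ (X.card : ℝ)) := by
  have h2 : ∀ c δ : ℝ, 0 < c → 0 < δ → ∀ᶠ d : ℕ in Filter.atTop,
      ∀ (r : ℕ) (P : Set (Fin d → ℝ)), IsCovering d r P →
      ∃ X : Finset (Fin d → ℝ), IsPortfolio (c * Real.log d) P X ∧
        (X.card : ℝ) < (d : ℝ) ^ δ := by
    intro c δ hc hδ
    filter_upwards [asym c δ hc hδ] with d hd r P hP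
    obtain ⟨g1, g2, g3⟩ := covering_closed hP
    obtain ⟨X, hX1, hX2⟩ := hd P g1 g2 g3
    exact ⟨X, hX2, hX1⟩
  refine ⟨fun d β L hd hβ hL P hcl hne hP => small hβ hL hd hcl hne hP, h2, fun hcon => ?_⟩
  obtain ⟨C, δ, -, hδ, hev⟩ := hcon 1 le_rfl
  obtain ⟨d, ⟨r, P, -, hcov, hall⟩, hd2⟩ := (hev.and (h2 1 δ one_pos hδ)).exists
  obtain ⟨X, hX1, hX2⟩ := hd2 r P hcov
  exact absurd (hall X hX1) (not_le.2 hX2)

end Pool.Agent.Results.MP_a76361_lc.SmallPortfolios
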